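import Pool.Agent.D0H63.MR.Std
import Pool.Agent.Results.MP_47914d_nt.RealFieldsPointsNomesJets

/-!
# Points `z = i s x ^ ρ` and `j (z)`, `j' (z)`, `j'' (z)` at ALL good approximations `x`, over all real number fields, of almost
every real vector

The modular Schanuel conjecture: for points `z_i` of the upper half-plane, not CM points and inequivalent under `GL_2^+(ℚ)`,
at least `n` of the numbers `z_i`, `j (z_i)` are algebraically independent. We consider the points `z = i s_(i j) x_l ^ ρ_i`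
(`0 < ρ_1 < … < ρ_m` real, the `s_(i j) > 0` real and linearly independent over `ℚ` for every `i`) and the
`(4 m p + r + 1) n + 1` numbers `π`, `log x_l`, `x_l ^ σ_i` (`1, σ_1, …, σ_r` linearly independent over `ℚ`) and
`exp (-2πi z)`, `j (z)`, `j' (z)`, `j'' (z)`. If `1, ρ_1, …, ρ_m` are linearly independent over `ℚ` and `σ = ρ`, all the `2 m p n`
numbers `z`, `j (z)` are (up to the constants `i s_(i j)`) among them.

Let `ξ` be a vector of positive real numbers and `K ⊂ ℝ` a number field. We consider ALL vectors `x` with coordinates in `K` which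
are near to `ξ`: the `x_l = p_l / q` with integers `q ≠ 0`, `p_l` of `K` all the conjugates of which are at most `T`, with
`|ξ_l - x_l| ≤ C T ^ (-τ [K : ℚ])`. By Minkowski's theorem there are, for `τ = 1 + 1 / n` and a suitable `C`, such `x` for
arbitrarily large `T`; for `K = ℚ` these are the best simultaneous approximations of `ξ`.

Theorem. For all `τ > 0` and all positive `ξ` but a set of Hausdorff dimension at most `n / τ` the following is true: for ALL number
fields `K`, `L` in `ℝ`, all `d` and `A` there is a `B` such that for all `C` and all large `T`, for all these `x`, the numbers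
satisfy no relation, not even an approximate one up to `T ^ (-B)`, of degree at most `d` in each number with coefficients in the
integers of `L` with conjugates at most `T ^ A`. For `τ > 1` this is true for almost all `ξ`. If the denominators of the `x_l` are
arbitrary (`x_l = p_l / q_l`) the same is true with the dimension `2 (n - 1) / τ`; for `n = 1` the exceptional set has the
dimension `0` for every `τ > 0`.

The starting file `RealFieldsPointsNomesJets` covers the exceptional vectors of height at most `T` by `C T ^ ε` hypersurfaces of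
degree at most `D`; this says nothing about the approximations of a given `ξ`, which are very sparse. The starting file
`BestApproximations` is about the points with the invariants `j (z_i) = v_i` for the vectors `v` of good approximations, for
almost all systems of linear forms. The proof here combines the hypersurfaces, for each denominator, with the Schwartz-Zippel
lemma and with the lemma of Hausdorff and Cantelli (`Pool.Agent.D0H63.MR.std_kind`).
-/

set_option autoImplicit false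

namespace Pool.Agent.Results.MP_47914d_nt.FieldApproximations

open Filter NumberField MeasureTheory MvPolynomial Pool.Agent
open RealFieldsPointsNomesJets (E4 E6 j jet numbers Exceptional)
open Pool.Agent.Y124 (Cov)

/-- the points `x l = p l / q`, where `q ≠ 0` and the `p l` are integers of `K` all the conjugates of which are at most `T` -/
def Common {X : Type} (K : Type) [Field K] [NumberField K] (T : ℝ) : Set (X → K) :=
  {x | ∃ (q : 𝓞 K) (p : X → 𝓞 K), q ≠ 0 ∧ house (q : K) ≤ T ∧ ∀ l, house (p l : K) ≤ T ∧ x l = (p l : K) / q}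

/-- the points all the coordinates of which are quotients of integers of `K` all the conjugates of which are at most `T` -/
def Independent {X : Type} (K : Type) [Field K] [NumberField K] (T : ℝ) : Set (X → K) :=
  {x | ∀ l, ∃ p q : 𝓞 K, q ≠ 0 ∧ house (p : K) ≤ T ∧ house (q : K) ≤ T ∧ x l = (p : K) / q}

/-- Some nonzero polynomial of degree at most `d` in each variable, with coefficients in the integers of `L` all the
conjugates of which are at most `T ^ A`, takes at the numbers `z` a value of absolute value at most `T ^ (-B)`. -/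
def Related {Y : Type} (L : IntermediateField ℚ ℝ) [NumberField L] (d : ℕ) (A B T : ℝ) (z : Y → ℂ) : Prop :=
  ∃ P : MvPolynomial Y (𝓞 L), P ≠ 0 ∧ (∀ i, P.degreeOf i ≤ d) ∧ (∀ e, house ((P.coeff e : 𝓞 L) : L) ≤ T ^ A) ∧
    ‖MvPolynomial.eval₂ ((Complex.ofRealHom.comp (algebraMap L ℝ)).comp (algebraMap (𝓞 L) L)) z P‖ ≤ T ^ (-B)

/-- For all number fields `K`, `L` in `ℝ`, all `d` and `A` there is a `B` such that for all `C` and all large `T`: for all the
points `x` in `S K T` which are within `C T ^ (-τ [K : ℚ])` of `ξ` in each coordinate the numbers `π`, `log x_l`, `x_l ^ σ_i`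
and `exp (-2πi z)`, `j (z)`, `j' (z)`, `j'' (z)` for `z = i s_(i j) x_l ^ ρ_i` (`numbers`) are not related, not even approximately,
over `L` in degree `d` and size `T ^ A`. -/
def Good {r m p n : ℕ} (σ : Fin r → ℝ) (ρ : Fin m → ℝ) (s : Fin m → Fin p → ℝ) (τ : ℝ)
    (S : ∀ (K : Type) [Field K] [NumberField K], ℝ → Set (Fin n → K)) (ξ : Fin n → ℝ) : Prop :=
  ∀ (K L : IntermediateField ℚ ℝ) [NumberField K] [NumberField L] (d : ℕ) (A : ℝ), ∃ B : ℝ, ∀ C : ℝ,
    ∀ᶠ T : ℝ in atTop, ∀ x ∈ S K T, (∀ l, |ξ l - (x l : ℝ)| ≤ C * T ^ (-(τ * Module.finrank ℚ K))) →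
      ¬ Related L d A B T (numbers (algebraMap K ℝ) σ ρ s x)

/-- the boxes -/
def Box (n i : ℕ) : Set (Fin n → ℝ) := {ξ | ∀ l, ξ l ∈ Set.Ioo (1 / ((i : ℝ) + 2)) ((i : ℝ) + 2)}

theorem box_open (n i : ℕ) : IsOpen (Box n i) := by
  unfold Box
  simp only [Set.ofPred_forall]
  exact isOpen_iInter_of_finite fun l => isOpen_Ioo.preimage (continuous_apply l)

theorem box_cover {n : ℕ} {ξ : Fin n → ℝ} (hξ : ∀ l, 0 < ξ l) : ξ ∈ ⋃ i, Box n i := by
  have h1 : ∀ l, ∃ i : ℕ, ξ l < i ∧ 1 / ξ l < i := fun l => by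
    obtain ⟨i, hi⟩ := exists_nat_gt (max (ξ l) (1 / ξ l))
    exact ⟨i, (le_max_left _ _).trans_lt hi, (le_max_right _ _).trans_lt hi⟩
  choose i hi1 hi2 using h1
  refine Set.mem_iUnion.2 ⟨Finset.univ.sup i, fun l => ?_⟩
  have h2 : (i l : ℝ) ≤ ((Finset.univ.sup i : ℕ) : ℝ) := by
    exact_mod_cast Finset.le_sup (Finset.mem_univ l)
  have h3 := hi1 l
  have h4 := hi2 l
  have h5 := hξ l
  refine ⟨?_, by linarith⟩
  have h6 : 1 / ξ l < ((Finset.univ.sup i : ℕ) : ℝ) + 2 := by linarith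
  rw [div_lt_iff₀ h5] at h6
  rw [div_lt_iff₀ (by positivity)]
  linarith

/-- the starting theorem for the boxes -/
theorem few {r m p n : ℕ} (hn : 1 ≤ n) (σ : Fin r → ℝ) (ρ : Fin m → ℝ) (s : Fin m → Fin p → ℝ) (hρ0 : ∀ i, 0 < ρ i)
    (hρ : StrictMono ρ) (hσ : ∀ (c0 : ℤ) (c : Fin r → ℤ), (c0 : ℝ) + ∑ i, (c i : ℝ) * σ i = 0 → c0 = 0 ∧ c = 0)
    (hs0 : ∀ i j, 0 < s i j) (hs : ∀ i, ∀ c : Fin p → ℤ, ∑ j, (c j : ℝ) * s i j = 0 → c = 0) (i : ℕ) :
    D0H63.MR.FewRelations Complex.ofRealHom (fun x : Fin n → ℝ => numbers (RingHom.id ℝ) σ ρ s x) (Box n i) := by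
  intro M _ d A ε hε
  obtain ⟨D, B, C, h⟩ := RealFieldsPointsNomesJets.result M (algebraMap M ℝ) r m p n d hn σ ρ s hρ0 hρ hσ hs0 hs A
    (1 / ((i : ℝ) + 2)) ((i : ℝ) + 2) ε (by positivity) (by
      rw [div_lt_iff₀ (by positivity)]
      have : (0 : ℝ) ≤ i := Nat.cast_nonneg i
      nlinarith) hε
  refine ⟨D, B, C, fun T hT => ?_⟩
  obtain ⟨⟨Φ, h1, h2, h3⟩, -⟩ := h T hT
  refine ⟨Φ, h1, h2, fun x hx hxT hrel => h3 x ⟨fun l => ⟨⟨(hx l).1.le, (hx l).2.le⟩, hxT l⟩, ?_⟩⟩
  have heq : numbers (RingHom.id ℝ) σ ρ s (fun l => (x l : ℝ)) = numbers (algebraMap M ℝ) σ ρ s x := by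
    funext o
    rcases o with _ | ⟨l, (_ | i) | ⟨i, k, q⟩⟩ <;> rfl
  simp only [heq] at hrel
  exact hrel

theorem kind {r m p n : ℕ} (hn : 1 ≤ n) (σ : Fin r → ℝ) (ρ : Fin m → ℝ) (s : Fin m → Fin p → ℝ) (hρ0 : ∀ i, 0 < ρ i)
    (hρ : StrictMono ρ) (hσ : ∀ (c0 : ℤ) (c : Fin r → ℤ), (c0 : ℝ) + ∑ i, (c i : ℝ) * σ i = 0 → c0 = 0 ∧ c = 0)
    (hs0 : ∀ i j, 0 < s i j) (hs : ∀ i, ∀ c : Fin p → ℤ, ∑ j, (c j : ℝ) * s i j = 0 → c = 0)
    {a : ℝ} (ha : 0 ≤ a) (S : ∀ (K : Type) [Field K] [NumberField K], ℝ → Set (Fin n → K))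
    (hSmono : ∀ (K : Type) [Field K] [NumberField K] (T T' : ℝ), T ≤ T' → S K T ⊆ S K T')
    (hSht : ∀ (K : Type) [Field K] [NumberField K] (T : ℝ), ∀ x ∈ S K T, ∀ l, Y120.HtLe K T (x l))
    (hScount : ∀ (K : Type) [Field K] [NumberField K] (io : K →+* ℂ), ∃ C : ℝ, 0 ≤ C ∧ ∀ (T : ℝ) (M : ℕ)
      (E : Set (Fin n → K)), 1 ≤ T → Cov M M ((fun (e : Fin n → K) l => io (e l)) '' E) → E ⊆ S K T →
        E.Finite ∧ (E.ncard : ℝ) ≤ C * (M : ℝ) ^ 2 * T ^ (a * Module.finrank ℚ K))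
    {τ : ℝ} (hτ : 0 < τ) :
    dimH {ξ : Fin n → ℝ | (∀ l, 0 < ξ l) ∧ ¬ Good σ ρ s τ S ξ} ≤ ENNReal.ofReal (a / τ) ∧
      (a / τ < n → ∀ᵐ ξ : Fin n → ℝ, (∀ l, 0 < ξ l) → Good σ ρ s τ S ξ) := by
  obtain ⟨E, hE, h⟩ := D0H63.MR.std_kind Complex.ofRealHom (fun x : Fin n → ℝ => numbers (RingHom.id ℝ) σ ρ s x)
    (Box n) (box_open n) (few hn σ ρ s hρ0 hρ hσ hs0 hs) ha S hSmono hSht hScount hτ
  have hgood : ∀ ξ : Fin n → ℝ, (∀ l, 0 < ξ l) → ξ ∉ E → Good σ ρ s τ S ξ := by
    intro ξ hξ hξE K L _ _ d A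
    obtain ⟨B, hB⟩ := h ξ (box_cover hξ) hξE K L d A
    refine ⟨B, fun C => (hB C).mono fun T hT x hx hclose hrel => hT x hx hclose ?_⟩
    have heq : numbers (RingHom.id ℝ) σ ρ s (fun l => (x l : ℝ)) = numbers (algebraMap K ℝ) σ ρ s x := by
      funext o
      rcases o with _ | ⟨l, (_ | i) | ⟨i, k, q⟩⟩ <;> rfl
    rw [heq]
    exact hrel
  refine ⟨le_trans (dimH_mono ?_) hE, fun h1 => ?_⟩
  · rintro ξ ⟨h2, h3⟩
    by_contra h4
    exact h3 (hgood ξ h2 h4)
  · have h2 := N251.LF.null_of_dim hE (by rwa [Fintype.card_fin]) (by rw [Fintype.card_fin]; omega)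
    filter_upwards [compl_mem_ae_iff.2 h2] with ξ hξ hU
    exact hgood ξ hU hξ

/-- **Theorem.** Let `n ≥ 1`, `0 < ρ_1 < … < ρ_m`, let `1, σ_1, …, σ_r` be linearly independent over `ℚ`, let the `s_(i j)` be
positive and, for every `i`, linearly independent over `ℚ`. For all `τ > 0`: (a) all positive real vectors `ξ` but a set of
Hausdorff dimension at most `n / τ` are good for the points with a common denominator (`Common`), in particular almost all
positive `ξ` if `τ > 1`; (b) all positive real vectors `ξ` but a set of dimension at most `2 (n - 1) / τ` are good for the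
points with arbitrary denominators (`Independent`), in particular almost all positive `ξ` if `τ > 2 (n - 1) / n`. -/
theorem result (r m p n : ℕ) (hn : 1 ≤ n) (σ : Fin r → ℝ) (ρ : Fin m → ℝ) (s : Fin m → Fin p → ℝ)
    (hρ0 : ∀ i, 0 < ρ i) (hρ : StrictMono ρ)
    (hσ : ∀ (c0 : ℤ) (c : Fin r → ℤ), (c0 : ℝ) + ∑ i, (c i : ℝ) * σ i = 0 → c0 = 0 ∧ c = 0)
    (hs0 : ∀ i j, 0 < s i j) (hs : ∀ i, ∀ c : Fin p → ℤ, ∑ j, (c j : ℝ) * s i j = 0 → c = 0) (τ : ℝ) (hτ : 0 < τ) :
    (dimH {ξ : Fin n → ℝ | (∀ l, 0 < ξ l) ∧ ¬ Good σ ρ s τ (fun K _ _ T => Common K T) ξ} ≤ ENNReal.ofReal (n / τ) ∧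
      (1 < τ → ∀ᵐ ξ : Fin n → ℝ, (∀ l, 0 < ξ l) → Good σ ρ s τ (fun K _ _ T => Common K T) ξ)) ∧
    (dimH {ξ : Fin n → ℝ | (∀ l, 0 < ξ l) ∧ ¬ Good σ ρ s τ (fun K _ _ T => Independent K T) ξ} ≤
        ENNReal.ofReal (2 * ((n : ℝ) - 1) / τ) ∧
      (2 * ((n : ℝ) - 1) / n < τ → ∀ᵐ ξ : Fin n → ℝ, (∀ l, 0 < ξ l) →
        Good σ ρ s τ (fun K _ _ T => Independent K T) ξ)) := by
  classical
  have hne : Nonempty (Fin n) := ⟨⟨0, hn⟩⟩
  have hd' : (1 : ℝ) ≤ n := by exact_mod_cast hn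
  have hd0 : (0 : ℝ) < n := by linarith
  have h1 := kind hn σ ρ s hρ0 hρ hσ hs0 hs (a := n) (by linarith) (fun K _ _ T => Common K T) (by
      rintro K _ _ T T' hTT x ⟨q, p, hq, hqT, hp⟩
      exact ⟨q, p, hq, hqT.trans hTT, fun l => ⟨(hp l).1.trans hTT, (hp l).2⟩⟩)
    (fun K _ _ T x hx l => D0H63.MR.common_ht hx l) (by
      intro K _ _ io
      have h := D0H63.MR.count_common (X := Fin n) K io
      rw [Fintype.card_fin] at h
      exact h) hτ
  have h2 := kind hn σ ρ s hρ0 hρ hσ hs0 hs (a := 2 * ((n : ℝ) - 1)) (by linarith) (fun K _ _ T => Independent K T) (by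
      rintro K _ _ T T' hTT x hx l
      obtain ⟨p, q, hq, hp, hqT, he⟩ := hx l
      exact ⟨p, q, hq, hp.trans hTT, hqT.trans hTT, he⟩)
    (fun K _ _ T x hx l => by
      obtain ⟨p, q, hq, hp, hqT, he⟩ := hx l
      exact ⟨p, q, hq, hp, hqT, he⟩) (by
      intro K _ _ io
      obtain ⟨C, hC, h⟩ := D0H63.MR.count_ht (X := Fin n) K io
      rw [Fintype.card_fin] at h
      refine ⟨C, hC, fun T M E hT hcov hE => h T M E hT hcov fun x hx l => ?_⟩
      obtain ⟨p, q, hq, hp, hqT, he⟩ := hE hx l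
      exact ⟨p, q, hq, hp, hqT, he⟩) hτ
  refine ⟨⟨h1.1, fun h3 => h1.2 ?_⟩, h2.1, fun h3 => h2.2 ?_⟩
  · rw [div_lt_iff₀ hτ]
    nlinarith
  · rw [div_lt_iff₀ hτ]
    rw [div_lt_iff₀ hd0] at h3
    linarith

end Pool.Agent.Results.MP_47914d_nt.FieldApproximations
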