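import Pool.Agent.D0H71.CM.Keep
import Pool.Agent.D0H54.PV.DiagS
import Pool.Agent.Results.MP_47914d_nt.IsogenyClasses

/-!
# The modular Schanuel conjecture at the values of compositions of multiplicative functions

Let `F_1, …, F_k` be ANY compositions `f_1 ∘ f_2 ∘ ... ∘ f_s` of positive multiplicative functions of at most polynomial growth
which are at most linear and injective at the large primes: for example `F_i(m) = φ(σ(φ(m)))`. Let
`w_i` be points of the upper half-plane with `j(w_i) = ± F_i(m_i)` (any signs), and let `z_i` be ANY points equivalent to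
`w_i` under `GL_2^+(ℚ)`.

(1) For every countable field `K` there is ONE exceptional set `E` of tuples, with at most `N^k / (log N)^U` elements in
`[1, N]^k` for every `U` and all large `N`, such that for all tuples `m` outside `E`, all signs and all points `z_i`: the
tuple `(z_1, …, z_k)` is not a zero of any given nonzero polynomial over `K`, when `max m_i` is large. So when `K` is the
field of the algebraic numbers, over which by the conjecture there is no relation at all between the `z_i` (unless a `z_i` is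
quadratic or two of them are equivalent), every single relation is excluded for all large `m` outside `E`.

(2) For all tuples `m ∈ [1, N]^k` but `N^k / (log N)^U` the numbers `z_1, …, z_k` do not satisfy any
polynomial relation of degree at most `δ` with coefficients in a given `ℚ`-vector space `V` of complex numbers of dimension
at most `D`, for all signs and all `z_i`. How large `N` has to be does not depend on `V`.

The starting theorem `IsogenyClasses` of this problem says that only `O(T^(k-c))` of the tuples of integers `t` with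
`|t_i| ≤ T` are exceptional, and the starting theorem `MultiplicativeValues` is the case of (2) where the `F_i` are single
multiplicative functions. A composition is not multiplicative, and nothing was known about its fibres, which are in general
very large. The tool is `Pool.Agent.D0H71.CM`: for almost all `m` one has `F m = u v` with `u ≤ N^η` and `v` squarefree,
coprime to `u`, free of prime factors below `(log log N)^B`, and with few prime factors between this bound and small powers of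
`N`; the property passes from `F` to `f ∘ F`. The one exceptional set in (1) is a diagonal union (`D0H54/PV/DiagS`).
-/

set_option autoImplicit false

namespace Pool.Agent.Results.MP_47914d_nt.IteratedFunctions

open Pool.Agent.N733.TG (LM lm_totient lm_sigma)
open Pool.Agent.D0H71.CM (Comp av_comp ckeep_tuples2)
open Pool.Agent.Results.MP_47914d_nt.IsogenyClasses (Exceptional Isogenous)

/-- Part (2). -/
lemma part2 (k : ℕ) (F : Fin k → ℕ → ℕ) (hk : 1 ≤ k) (hF : ∀ i, Comp (F i)) (δ D U : ℕ) :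
    ∃ N₀ : ℕ, ∀ N : ℕ, N₀ ≤ N →
      ∀ (V : Submodule ℚ ℂ) [Module.Finite ℚ V], Module.finrank ℚ V ≤ D →
      ({m : Fin k → ℕ | (∀ i, 1 ≤ m i ∧ m i ≤ N) ∧
        ¬ ∀ t : Fin k → ℤ, (∀ i, |t i| = F i (m i)) → ¬ Exceptional δ V t}.ncard : ℝ) ≤
        (N : ℝ) ^ k / Real.log N ^ U := by
  classical
  obtain ⟨c, C, hc, hC, hcount⟩ := Pool.Agent.Results.MP_47914d_nt.IsogenyClasses.result k δ D
  obtain ⟨c', hc'⟩ : ∃ c' : ℝ, c' = min c 1 := ⟨_, rfl⟩
  have hc'0 : 0 < c' := by rw [hc']; exact lt_min hc one_pos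
  have hc'c : c' ≤ c := by rw [hc']; exact min_le_left _ _
  have hc'1 : c' ≤ 1 := by rw [hc']; exact min_le_right _ _
  obtain ⟨N₀, hN₀⟩ := ckeep_tuples2 hk (fun i => av_comp (hF i)) hc'0 U (C * (k * 2))
  refine ⟨max N₀ 1, fun N hN V _ hV => ?_⟩
  refine le_trans ?_ (hN₀ N (le_trans (le_max_left _ _) hN)
    {w : Fin k → ℕ | ∃ t : Fin k → ℤ, (∀ i, |t i| = w i) ∧ Exceptional δ V t} fun X hX => ?_)
  · have hfin : {m : Fin k → ℕ | (∀ i, 1 ≤ m i ∧ m i ≤ N) ∧ ¬ ((∀ i, 2 ≤ F i (m i)) ∧ (fun i => F i (m i)) ∉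
        {w : Fin k → ℕ | ∃ t : Fin k → ℤ, (∀ i, |t i| = w i) ∧ Exceptional δ V t})}.Finite := by
      apply (Set.Finite.pi' fun _ : Fin k => Set.finite_Icc 1 N).subset
      intro m hm i
      exact hm.1 i
    have h2 : {m : Fin k → ℕ | (∀ i, 1 ≤ m i ∧ m i ≤ N) ∧
        ¬ ∀ t : Fin k → ℤ, (∀ i, |t i| = F i (m i)) → ¬ Exceptional δ V t} ⊆
        {m : Fin k → ℕ | (∀ i, 1 ≤ m i ∧ m i ≤ N) ∧ ¬ ((∀ i, 2 ≤ F i (m i)) ∧ (fun i => F i (m i)) ∉
        {w : Fin k → ℕ | ∃ t : Fin k → ℤ, (∀ i, |t i| = w i) ∧ Exceptional δ V t})} := by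
      rintro m ⟨h3, h4⟩
      refine ⟨h3, ?_⟩
      rintro ⟨-, h5⟩
      apply h4
      intro t ht hE
      exact h5 ⟨t, ht, hE⟩
    exact_mod_cast Set.ncard_le_ncard h2 hfin
  · -- the exceptional tuples of natural numbers
    have hX1 : (1 : ℝ) ≤ X := by exact_mod_cast hX
    have hX0 : (0 : ℝ) < X := by linarith
    have hfin : {w : Fin k → ℕ | (∀ i, 2 ≤ w i ∧ w i ≤ X) ∧ w ∈
        {w : Fin k → ℕ | ∃ t : Fin k → ℤ, (∀ i, |t i| = w i) ∧ Exceptional δ V t}}.Finite := by
      apply (Set.Finite.pi' fun _ : Fin k => Set.finite_Icc 2 X).subset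
      intro m hm i
      exact hm.1 i
    choose! g hg1 hg2 using fun (w : Fin k → ℕ) (hw : w ∈
      {w : Fin k → ℕ | ∃ t : Fin k → ℤ, (∀ i, |t i| = w i) ∧ Exceptional δ V t}) => hw
    have hinj : Set.InjOn g (hfin.toFinset : Set (Fin k → ℕ)) := by
      intro w hw w' hw' h
      rw [Set.Finite.coe_toFinset] at hw hw'
      funext i
      have h1 := hg1 w hw.2 i
      have h2 := hg1 w' hw'.2 i
      rw [h, h2] at h1
      exact_mod_cast h1.symm
    have h1 := hcount V hV (fun _ => 0) X hX (hfin.toFinset.image g) (by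
      intro t ht
      rw [Finset.mem_image] at ht
      obtain ⟨w, hw, rfl⟩ := ht
      rw [Set.Finite.mem_toFinset] at hw
      refine ⟨fun i => ?_, hg2 w hw.2⟩
      rw [hg1 w hw.2 i]
      have := hw.1 i
      push_cast
      constructor
      · have : 0 < w i := by omega
        exact_mod_cast this
      · rw [zero_add]
        exact_mod_cast this.2)
    rw [Finset.card_image_of_injOn hinj, ← Set.ncard_eq_toFinset_card _ hfin] at h1
    refine h1.trans ?_
    have h2 : ∀ i : Fin k, (1 + (X : ℝ) / (((0 : ℕ) : ℝ) + X) ^ c) ≤ 2 * (X : ℝ) ^ (1 - c') := by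
      intro i
      have h3 : (1 : ℝ) ≤ (X : ℝ) ^ (1 - c') := Real.one_le_rpow hX1 (by linarith)
      have h4 : (X : ℝ) / (((0 : ℕ) : ℝ) + X) ^ c ≤ (X : ℝ) ^ (1 - c') := by
        rw [Nat.cast_zero, zero_add]
        calc (X : ℝ) / (X : ℝ) ^ c = (X : ℝ) ^ (1 - c) := by
              rw [Real.rpow_sub hX0, Real.rpow_one]
          _ ≤ _ := Real.rpow_le_rpow_of_exponent_le hX1 (by linarith)
      linarith
    have h5 : (∑ _i : Fin k, (1 + (X : ℝ) / (((0 : ℕ) : ℝ) + X) ^ c)) ≤ k * (2 * (X : ℝ) ^ (1 - c')) := by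
      refine (Finset.sum_le_sum fun i _ => h2 i).trans ?_
      rw [Finset.sum_const, Finset.card_univ, Fintype.card_fin, nsmul_eq_mul]
    calc C * (X : ℝ) ^ (k - 1) * ∑ _i : Fin k, (1 + (X : ℝ) / (((0 : ℕ) : ℝ) + X) ^ c)
        ≤ C * (X : ℝ) ^ (k - 1) * (k * (2 * (X : ℝ) ^ (1 - c'))) := by gcongr
      _ = C * (k * 2) * ((X : ℝ) ^ ((k : ℝ) - 1) * (X : ℝ) ^ (1 - c')) := by
          rw [← Real.rpow_natCast (X : ℝ) (k - 1), Nat.cast_sub hk, Nat.cast_one]
          ring
      _ = C * (k * 2) * (X : ℝ) ^ ((k : ℝ) - c') := by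
          rw [← Real.rpow_add hX0]
          congr 2
          ring


lemma totalDegree_map_le' {k : ℕ} (K : Subfield ℂ) (P : MvPolynomial (Fin k) K) :
    (MvPolynomial.map (algebraMap K ℂ) P).totalDegree ≤ P.totalDegree := by
  unfold MvPolynomial.totalDegree
  exact Finset.sup_mono (MvPolynomial.support_map_subset _ _)

/-- A relation over `K` is a relation with coefficients in every space which contains its coefficients. -/
lemma exceptional_of {k : ℕ} (K : Subfield ℂ) (P : MvPolynomial (Fin k) K) (hP : P ≠ 0) (V : Submodule ℚ ℂ)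
    (hV : ∀ s ∈ P.support, algebraMap K ℂ (P.coeff s) ∈ V) (t : Fin k → ℤ) (z : Fin k → ℂ)
    (hz : ∀ i, Isogenous (t i) (z i)) (h0 : MvPolynomial.aeval z P = 0) : Exceptional P.totalDegree V t := by
  refine ⟨z, hz, MvPolynomial.map (algebraMap K ℂ) P, ?_, totalDegree_map_le' K P, ?_, ?_⟩
  · intro h6
    apply hP
    apply MvPolynomial.map_injective (algebraMap K ℂ) (algebraMap K ℂ).injective
    rw [h6, map_zero]
  · intro s
    rw [MvPolynomial.coeff_map]
    by_cases hs : s ∈ P.support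
    · exact hV s hs
    · rw [MvPolynomial.notMem_support_iff] at hs
      rw [hs, map_zero]
      exact V.zero_mem
  · rw [MvPolynomial.eval_map]
    exact h0

/-- **The modular Schanuel conjecture at the values of compositions of multiplicative functions.** Let `F_1, …, F_k` be
compositions of functions of the class `LM` (multiplicative and positive, of at most polynomial growth, with `f p ≤ M p` at the
large primes, and injective there).

(1) For every countable field `K` there is one set `E` of tuples, with at most `N^k / (log N)^U` elements in `[1, N]^k` for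
every `U` and all large `N`, such that for every nonzero polynomial `P` over `K` and all tuples `m` outside `E` with
`max m_i ≥ M(P)`: `P(z_1, …, z_k) ≠ 0` for all points `z_i` in the isogeny classes of points with `j(w_i) = ± F_i(m_i)`.

(2) For all `δ`, `D`, `U`, all large `N` and every `ℚ`-subspace `V` of `ℂ` of dimension at most `D`: for all
`m ∈ [1, N]^k` but `N^k / (log N)^U`, NO tuple of integers `t` with `|t_i| = F_i(m_i)` is exceptional, that is, no points
`z_i` in the isogeny classes of the points with `j(w_i) = t_i` satisfy a relation of degree at most `δ` with coefficients in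
`V`. Euler's function and the sum of the divisors belong to the class `LM`. -/
theorem result :
    (∀ (k : ℕ) (F : Fin k → ℕ → ℕ), 1 ≤ k → (∀ i, Comp (F i)) → ∀ (K : Subfield ℂ) [Countable K],
      ∃ E : Set (Fin k → ℕ),
        (∀ U : ℕ, ∃ N₀ : ℕ, ∀ N : ℕ, N₀ ≤ N →
          ({m : Fin k → ℕ | (∀ i, 1 ≤ m i ∧ m i ≤ N) ∧ m ∈ E}.ncard : ℝ) ≤ (N : ℝ) ^ k / Real.log N ^ U) ∧
        ∀ P : MvPolynomial (Fin k) K, P ≠ 0 → ∃ M : ℕ, ∀ m : Fin k → ℕ, (∀ i, 1 ≤ m i) → (∃ i, M ≤ m i) → m ∉ E →
          ∀ t : Fin k → ℤ, (∀ i, |t i| = F i (m i)) → ∀ z : Fin k → ℂ, (∀ i, Isogenous (t i) (z i)) →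
            MvPolynomial.aeval z P ≠ 0) ∧
    (∀ (k : ℕ) (F : Fin k → ℕ → ℕ), 1 ≤ k → (∀ i, Comp (F i)) → ∀ δ D U : ℕ, ∃ N₀ : ℕ, ∀ N : ℕ, N₀ ≤ N →
      ∀ (V : Submodule ℚ ℂ) [Module.Finite ℚ V], Module.finrank ℚ V ≤ D →
      ({m : Fin k → ℕ | (∀ i, 1 ≤ m i ∧ m i ≤ N) ∧
        ¬ ∀ t : Fin k → ℤ, (∀ i, |t i| = F i (m i)) → ¬ Exceptional δ V t}.ncard : ℝ) ≤
        (N : ℝ) ^ k / Real.log N ^ U) ∧
    (LM Nat.totient ∧ LM (fun m => ∑ d ∈ m.divisors, d)) := by
  classical
  refine ⟨fun k F hk hF K _ => ?_, fun k F hk hF δ D U => part2 k F hk hF δ D U, lm_totient, lm_sigma⟩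
  have hcount : Countable (MvPolynomial (Fin k) K) := by
    rw [← Cardinal.mk_le_aleph0_iff]
    refine MvPolynomial.cardinalMk_le_max.trans ?_
    rw [max_le_iff, max_le_iff]
    exact ⟨⟨Cardinal.mk_le_aleph0_iff.2 inferInstance, Cardinal.mk_le_aleph0_iff.2 inferInstance⟩, le_rfl⟩
  obtain ⟨E, hE1, hE2⟩ := Pool.Agent.D0H54.PV.diagS
    (ι := {P : MvPolynomial (Fin k) K // P ≠ 0})
    (fun X : ℕ => {m : Fin k → ℕ | ∀ i, 1 ≤ m i ∧ m i ≤ X}) (fun X => by
      apply (Set.Finite.pi' fun _ : Fin k => Set.finite_Icc 1 X).subset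
      intro m hm i
      exact hm i)
    (fun m => Finset.univ.sup m) (fun X m hm => Finset.sup_le fun i _ => (hm i).2)
    (Pool.Agent.D0H54.PV.βk k) (Pool.Agent.D0H54.PV.βk_nonneg k) (Pool.Agent.D0H54.PV.βk_anti k)
    (Pool.Agent.D0H54.PV.βk_step k)
    (fun P m => ∃ t : Fin k → ℤ, (∀ i, |t i| = F i (m i)) ∧ ∃ z : Fin k → ℂ, (∀ i, Isogenous (t i) (z i)) ∧
      MvPolynomial.aeval z P.1 = 0) (by
      rintro ⟨P, hP⟩ U
      obtain ⟨V, hV⟩ : ∃ V : Submodule ℚ ℂ,
          V = Submodule.span ℚ ((P.support.image fun s => algebraMap K ℂ (P.coeff s) : Finset ℂ) : Set ℂ) := ⟨_, rfl⟩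
      have : Module.Finite ℚ V := by
        rw [hV]
        exact Module.Finite.span_finset ℚ _
      obtain ⟨N₀, hN₀⟩ := part2 k F hk hF P.totalDegree (Module.finrank ℚ V) U
      refine ⟨N₀, fun N hN => le_trans ?_ (hN₀ N hN V le_rfl)⟩
      have hfin : {m : Fin k → ℕ | (∀ i, 1 ≤ m i ∧ m i ≤ N) ∧
          ¬ ∀ t : Fin k → ℤ, (∀ i, |t i| = F i (m i)) → ¬ Exceptional P.totalDegree V t}.Finite := by
        apply (Set.Finite.pi' fun _ : Fin k => Set.finite_Icc 1 N).subset
        intro m hm i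
        exact hm.1 i
      have hsub : {m : Fin k → ℕ | m ∈ {m : Fin k → ℕ | ∀ i, 1 ≤ m i ∧ m i ≤ N} ∧
          ∃ t : Fin k → ℤ, (∀ i, |t i| = F i (m i)) ∧ ∃ z : Fin k → ℂ, (∀ i, Isogenous (t i) (z i)) ∧
            MvPolynomial.aeval z P = 0} ⊆ {m : Fin k → ℕ | (∀ i, 1 ≤ m i ∧ m i ≤ N) ∧
          ¬ ∀ t : Fin k → ℤ, (∀ i, |t i| = F i (m i)) → ¬ Exceptional P.totalDegree V t} := by
        rintro m ⟨h1, t, h2, z, h3, h4⟩
        refine ⟨h1, fun h5 => h5 t h2 (exceptional_of K P hP V ?_ t z h3 h4)⟩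
        intro s hs
        rw [hV]
        apply Submodule.subset_span
        rw [Finset.coe_image]
        exact ⟨s, hs, rfl⟩
      exact_mod_cast Set.ncard_le_ncard hsub hfin)
  refine ⟨E, fun U => ?_, fun P hP => ?_⟩
  · obtain ⟨N₀, hN₀⟩ := hE1 U
    exact ⟨N₀, fun N hN => hN₀ N hN⟩
  · obtain ⟨M, hM⟩ := hE2 ⟨P, hP⟩
    refine ⟨M, fun m _ hmM hmE t ht z hz h0 => hmE ?_⟩
    obtain ⟨i, hi⟩ := hmM
    exact hM m (hi.trans (Finset.le_sup (f := m) (Finset.mem_univ i))) ⟨t, ht, z, hz, h0⟩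

end Pool.Agent.Results.MP_47914d_nt.IteratedFunctions
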