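import Mathlib
import Pool.Agent.D0H75.JS.Iso

/-!
# The modular Schanuel conjecture for isogeny classes: `S`-unit invariants, `O (log log Y)` exceptions

Let `j` be the modular invariant, `v_1, …, v_k` points of the upper half-plane for which the numbers `j(v_i) = 1 / x_i` are
rational, and `z_i = (a_i v_i + b_i) / (c_i v_i + d_i)` any points equivalent to them under `GL_2^+(ℚ)`. The numbers
`j(z_i)` are algebraic; unless `z_i` is a CM point or two of the points are equivalent, the modular Schanuel conjecture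
predicts that `z_1, …, z_k` are algebraically independent. We call `(x_1, …, x_k)` free in degree `δ` if for all these
`z_1, …, z_k` (there is no bound for the degrees of the isogenies) every relation of degree at most `δ` between
`2 π i`, the logarithms of given natural numbers `a_1, …, a_s ≥ 2`, arbitrary given complex numbers `w_1, …, w_q` and
`z_1, …, z_k`, over a number field of degree at most `δ` (of any height), is trivial: the polynomial is zero after the
substitution of the constants (`Free`).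

Fix `k`, `q`, `s`. There is a number `C` such that for all `δ`, `a_1, …, a_s ≥ 2` and `w_1, …, w_q` the following holds.

1. (Windows of multiples.) Let `(H + 2) ^ ((δ + 2) ^ C) ≤ t`. After the deletion of `q + s + 2` numbers from the set of
   the products `g ≤ H` of powers of the `a_i`, all `(g_1 / t, …, g_k / t)` with distinct remaining `g_i` (that is, the
   invariants `t / g_1, …, t / g_k`) are free in degree `δ`.
2. (`S`-unit invariants.) Let `Λ` be a set of rational numbers of the form `x = A / B`, `A` and `B` products of powers of the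
   `a_i`, with `(A + 1) ^ ((δ + 2) ^ C) ≤ B ≤ Y`. All the points of `Λ ^ k` (that is, the invariants `B_1 / A_1, …, B_k / A_k`)
   are free in degree `δ` except for at most `(δ + 2) ^ C log log Y · |Λ| ^ (k - 1)` of them.
3. If `(x_1, …, x_k)` is free in degree `δ` then there is no nonzero polynomial of degree at most `δ` over a number field of
   degree at most `δ` which vanishes at `2 π i, z_1, …, z_k`.

For example, let `k = 1` and `Λ = {a ^ (-e) : a ^ e ≤ Y}`, a set with about `log Y / log a` elements: for all but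
`(δ + 2) ^ C log log Y` of the numbers `e` all points isogenous to a point with `j = a ^ e` satisfy no relation of degree `δ`
with `π`, `log a` over number fields of degree `δ`; here `δ` can be as large as a power of `log Y`. For `s` primes `Λ` can have
about `(log Y) ^ s` elements.

The starting theorems on isogeny classes are about integral invariants: tuples of integers in an interval `[N, N + H]`, `H` less
than a small power of `N` (`IsogenyWindows`, `GrowingDegreeIsogenies`), and tuples of integers up to `T` outside a set with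
`T ^ (k - c)` elements. They give nothing for sets as thin as the powers of `2`, or for invariants which are not integers.

The proof. Instead of the functions at `X / (1 - g X)` for different `g`, which give the values at `1 / (t - g)`, we use the
hypergeometric functions `F(g X)` and their companions; the G-systems of their monomials have constants which are
polynomial in `g` and exponential in the degree (`D0H75/JS/Rs`), and they are linearly independent as the singular points
`1 / (1728 g)` are different (`D0H75/JS/LI`, with the monodromy statements of the starting library, project of helper120). The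
theorem of the starting library on the values of G-functions at `1 / t` and the elimination of unknown constants apply
(`D0H75/JS/Nr`, `D0H75/JS/Win`). As `log (g / t) = log g - log t` the constants are `2 π i`, `log t`, the `log a_i` and the
`w_j`, whatever the number of the multiples `g` is. By rounding the exponents one needs `O (log log Y)` windows
(`D0H75/LS/Cov`). The passage to the points of the upper half-plane and their isogeny classes is in `D0H75/JS/Iso`.
-/

set_option autoImplicit false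

namespace Pool.Agent.Results.MP_47914d_nt.SUnitInvariants

/-- the normalised Eisenstein series of weight `4` -/
noncomputable def E4 (τ : ℂ) : ℂ :=
  1 + 240 * ∑' m : ℕ, ((ArithmeticFunction.sigma 3 (m + 1) : ℕ) : ℂ) *
    Complex.exp (2 * (Real.pi : ℂ) * Complex.I * ((m : ℂ) + 1) * τ)

/-- the normalised Eisenstein series of weight `6` -/
noncomputable def E6 (τ : ℂ) : ℂ :=
  1 - 504 * ∑' m : ℕ, ((ArithmeticFunction.sigma 5 (m + 1) : ℕ) : ℂ) *
    Complex.exp (2 * (Real.pi : ℂ) * Complex.I * ((m : ℂ) + 1) * τ)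

/-- the modular invariant `j = q⁻¹ + 744 + 196884 q + ⋯` -/
noncomputable def J (τ : ℂ) : ℂ := 1728 * E4 τ ^ 3 / (E4 τ ^ 3 - E6 τ ^ 2)

/-- `z` is equivalent under `GL_2^+(ℚ)` to a point `v` of the upper half-plane with `j(v) = 1 / x`. -/
def Isogenous (x : ℚ) (z : ℂ) : Prop :=
  ∃ v : ℂ, 0 < v.im ∧ J v = 1 / (x : ℂ) ∧
    ∃ a b c d : ℚ, 0 < a * d - b * c ∧ z = ((a : ℂ) * v + b) / ((c : ℂ) * v + d)

/-- The constants `2 π i`, `log a_1, …, log a_s`, `w_1, …, w_q`. -/
noncomputable def constants {s q : ℕ} (a : Fin s → ℕ) (w : Fin q → ℂ) (o : Option (Fin s ⊕ Fin q)) : ℂ :=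
  o.elim (2 * Real.pi * Complex.I) (Sum.elim (fun i => ((Real.log (a i) : ℝ) : ℂ)) w)

/-- The constants and `k` variables. -/
noncomputable def generic {s q k : ℕ} (a : Fin s → ℕ) (w : Fin q → ℂ) :
    Option (Fin s ⊕ Fin q) ⊕ Fin k → MvPolynomial (Fin k) ℂ :=
  Sum.elim (fun o => MvPolynomial.C (constants a w o)) MvPolynomial.X

/-- `(x_1, …, x_k)` is free in degree `δ`: for all `z_i` isogenous to points with invariants `1 / x_i` every polynomial of
degree at most `δ` over a number field of degree at most `δ` which vanishes at the constants and `z_1, …, z_k` is zero after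
the substitution of the constants. -/
def Free {s q k : ℕ} (δ : ℕ) (a : Fin s → ℕ) (w : Fin q → ℂ) (x : Fin k → ℚ) : Prop :=
  ∀ z : Fin k → ℂ, (∀ i, Isogenous (x i) (z i)) →
    ∀ K : IntermediateField ℚ ℂ, FiniteDimensional ℚ K → Module.finrank ℚ K ≤ δ →
      ∀ P : MvPolynomial (Option (Fin s ⊕ Fin q) ⊕ Fin k) K, P.totalDegree ≤ δ →
        MvPolynomial.aeval (Sum.elim (constants a w) z) P = 0 → MvPolynomial.aeval (generic (k := k) a w) P = 0

/-- The products `a_1^{m_1} ⋯ a_s^{m_s}`, `m_i ≥ 0`. -/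
def IsProduct {s : ℕ} (a : Fin s → ℕ) (n : ℕ) : Prop := ∃ m : Fin s → ℕ, n = ∏ i, a i ^ m i

/-- The quotients `x = A / B` of two products of powers of the `a_i` with `(A + 1) ^ N ≤ B ≤ Y`. -/
def Near {s : ℕ} (a : Fin s → ℕ) (N Y : ℕ) (x : ℚ) : Prop :=
  ∃ A B : ℕ, IsProduct a A ∧ IsProduct a B ∧ x = (A : ℚ) / B ∧ (A + 1) ^ N ≤ B ∧ B ≤ Y

lemma J_eq : J = Pool.Agent.TH21.MS.jj := by
  have h4 : E4 = Pool.Agent.TH21.MS.E4 := funext Pool.Agent.Y120.J.E4_same
  have h6 : E6 = Pool.Agent.TH21.MS.E6 := funext Pool.Agent.Y120.J.E6_same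
  funext τ
  unfold J Pool.Agent.TH21.MS.jj
  rw [h4, h6]

lemma constants_eq {s q : ℕ} (a : Fin s → ℕ) (w : Fin q → ℂ) :
    constants a w = Pool.Agent.D0H75.JS.cst Pool.Agent.Y120.J.tpi a w := by
  funext o
  rcases o with _ | o <;> rfl

theorem isProduct_pos {s : ℕ} {a : Fin s → ℕ} (ha : ∀ i, 2 ≤ a i) {n : ℕ} (h : IsProduct a n) : 0 < n := by
  obtain ⟨m, rfl⟩ := h
  exact Finset.prod_pos fun i _ => pow_pos (by have := ha i; omega) _

open Classical in
/-- **Main result.** -/
theorem result (k q s : ℕ) : ∃ C : ℕ, ∀ (δ : ℕ) (a : Fin s → ℕ) (w : Fin q → ℂ), (∀ i, 2 ≤ a i) →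
    (∀ H t : ℕ, (H + 2) ^ ((δ + 2) ^ C) ≤ t → ∃ S : Finset ℕ, S.card ≤ q + s + 2 ∧
      ∀ g : Fin k → ℕ, Function.Injective g → (∀ i, IsProduct a (g i) ∧ g i ≤ H ∧ g i ∉ S) →
        Free δ a w fun i => (g i : ℚ) / t) ∧
    (∀ Y : ℕ, 16 ≤ Y → ∀ Λ : Finset ℚ, (∀ x ∈ Λ, Near a ((δ + 2) ^ C) Y x) →
      ((((Fintype.piFinset fun _ : Fin k => Λ).filter fun x => ¬ Free δ a w x).card : ℕ) : ℝ) ≤
        ((δ : ℝ) + 2) ^ C * Real.log (Real.log Y) * (Λ.card : ℝ) ^ (k - 1)) ∧
    (∀ x : Fin k → ℚ, Free δ a w x → ∀ z : Fin k → ℂ, (∀ i, Isogenous (x i) (z i)) →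
      ∀ K : IntermediateField ℚ ℂ, FiniteDimensional ℚ K → Module.finrank ℚ K ≤ δ →
      ∀ P : MvPolynomial (Option (Fin k)) K, P.totalDegree ≤ δ →
        MvPolynomial.aeval (fun o : Option (Fin k) => o.elim (2 * Real.pi * Complex.I) z) P = 0 → P = 0) := by
  obtain ⟨E₁, ⟨C₁, hC₁⟩, h₁⟩ := Pool.Agent.D0H75.JS.window k q s
  obtain ⟨C₂, h₂⟩ := Pool.Agent.D0H75.JS.main_tuples k q s
  obtain ⟨T, hT⟩ := Pool.Agent.D0H75.JS.iso_rel
  set C : ℕ := (2 * k + 1) * (C₁ + C₂) + (T + 1) with hC
  have hpow : ∀ (δ c : ℕ), c ≤ C₁ + C₂ → ((2 * k + 1) * δ + 2) ^ c ≤ (δ + 2) ^ C := by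
    intro δ c hc
    have h1 : (2 * k + 1) * δ + 2 ≤ (δ + 2) ^ (2 * k + 1) := by
      have h2 : 2 * k + 1 ≤ 2 ^ (2 * k) := Nat.lt_two_pow_self
      calc (2 * k + 1) * δ + 2 ≤ (2 * k + 1) * (δ + 2) := by nlinarith
        _ ≤ 2 ^ (2 * k) * (δ + 2) := Nat.mul_le_mul_right _ h2
        _ ≤ (δ + 2) ^ (2 * k) * (δ + 2) := Nat.mul_le_mul_right _ (Nat.pow_le_pow_left (by omega) _)
        _ = (δ + 2) ^ (2 * k + 1) := (pow_succ _ _).symm
    calc ((2 * k + 1) * δ + 2) ^ c ≤ ((δ + 2) ^ (2 * k + 1)) ^ c := Nat.pow_le_pow_left h1 c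
      _ = (δ + 2) ^ ((2 * k + 1) * c) := (pow_mul _ _ _).symm
      _ ≤ (δ + 2) ^ C := Nat.pow_le_pow_right (by omega) (by
          rw [hC]
          exact (Nat.mul_le_mul_left _ hc).trans (Nat.le_add_right _ _))
  -- the points are close to the cusp
  have hcusp : ∀ (δ A B : ℕ), (A + 1) ^ ((δ + 2) ^ C) ≤ B → 1 ≤ A → T * A ≤ B := by
    intro δ A B h hA
    have h1 : T + 1 ≤ (δ + 2) ^ C := by
      calc T + 1 ≤ C := by rw [hC]; exact Nat.le_add_left _ _
        _ ≤ 2 ^ C := Nat.lt_two_pow_self.le
        _ ≤ (δ + 2) ^ C := Nat.pow_le_pow_left (by omega) _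
    calc T * A ≤ 2 ^ T * (A + 1) := Nat.mul_le_mul Nat.lt_two_pow_self.le (Nat.le_succ _)
      _ ≤ (A + 1) ^ T * (A + 1) := Nat.mul_le_mul_right _ (Nat.pow_le_pow_left (by omega) _)
      _ = (A + 1) ^ (T + 1) := (pow_succ _ _).symm
      _ ≤ (A + 1) ^ ((δ + 2) ^ C) := Nat.pow_le_pow_right (by omega) h1
      _ ≤ B := h
  have hfree : ∀ (δ : ℕ) (a : Fin s → ℕ) (w : Fin q → ℂ) (x : Fin k → ℚ), (∀ i, 0 < x i ∧ (T : ℚ) * x i ≤ 1) →
      ¬ Pool.Agent.R351.GD.RelK ((2 * k + 1) * δ) (Pool.Agent.D0H75.JS.cst Pool.Agent.Y120.J.tpi a w)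
        (fun p : Fin k × Fin 3 => Pool.Agent.D0H75.JS.pz ((x p.1 : ℚ) : ℝ) p.2) → Free δ a w x := by
    intro δ a w x hx hR z hz K hK hKd P hP hP0
    by_contra hne
    refine hR (hT a w (fun i => ((x i : ℚ) : ℝ)) (fun i => ?_) z (fun i => ?_) ⟨K, hK, hKd, P, hP, ?_, ?_⟩)
    · obtain ⟨h1, h2⟩ := hx i
      exact ⟨by exact_mod_cast h1, by exact_mod_cast h2⟩
    · obtain ⟨v, hv, hvj, h3⟩ := hz i
      refine ⟨v, hv, ?_, h3⟩
      rw [← J_eq, hvj]
      push_cast
      rfl
    · rw [← constants_eq]
      exact hP0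
    · rw [← constants_eq]
      exact hne
  refine ⟨C, fun δ a w ha => ⟨fun H t ht => ?_, fun Y hY Λ hΛ => ?_, fun x hx z hz K hK hKd P hP hP0 => ?_⟩⟩
  · have hE : E₁ ((2 * k + 1) * δ) ≤ (δ + 2) ^ C := (hC₁ _).trans (hpow δ C₁ (by omega))
    obtain ⟨S, hS, h⟩ := h₁ Pool.Agent.Y120.J.tpi ((2 * k + 1) * δ) H t
      ((Nat.pow_le_pow_right (by omega) hE).trans ht) a (Fin q) w (by rw [Fintype.card_fin])
    refine ⟨S, hS, fun g hg hgb => hfree δ a w _ (fun i => ?_) fun hR => ?_⟩
    · have h1 : 0 < g i := isProduct_pos ha (hgb i).1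
      have h3 : T * g i ≤ t := hcusp δ (g i) t
        ((Nat.pow_le_pow_left (by have := (hgb i).2.1; omega) _).trans ht) h1
      have ht0 : 0 < t := lt_of_lt_of_le (pow_pos (by omega) _) ht
      have h4 : (0 : ℚ) < t := by exact_mod_cast ht0
      constructor
      · exact div_pos (by exact_mod_cast h1) h4
      · rw [← mul_div_assoc, div_le_one h4]
        exact_mod_cast h3
    · refine h g hg (fun i => ?_) ?_
      · obtain ⟨⟨m, hm⟩, h3, h4⟩ := hgb i
        have hm' : g i = Pool.Agent.D0H75.LS.pp a m := hm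
        refine ⟨?_, h3, h4, fun j => (m j : ℚ), ?_⟩
        · rw [hm']
          exact Pool.Agent.D0H75.LS.pp_pos ha m
        · rw [hm', Pool.Agent.D0H75.LS.pp_log ha]
          simp
      · have h5 : (fun p : Fin k × Fin 3 => Pool.Agent.D0H75.JS.pz ((((g p.1 : ℕ) : ℚ) / (t : ℚ) : ℚ) : ℝ) p.2) =
            fun p : Fin k × Fin 3 => Pool.Agent.D0H75.JS.pz ((g p.1 : ℝ) / t) p.2 := by
          funext p
          have h6 : ((((g p.1 : ℕ) : ℚ) / (t : ℚ) : ℚ) : ℝ) = (g p.1 : ℝ) / t := by push_cast; rfl
          rw [h6]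
        rw [← h5]
        exact hR
  · refine le_trans ?_ (le_trans (h₂ Pool.Agent.Y120.J.tpi ((2 * k + 1) * δ) a ha w Y hY Λ fun x hx => ?_) ?_)
    · rw [Nat.cast_le]
      refine Finset.card_le_card fun x hx => ?_
      rw [Finset.mem_filter] at hx ⊢
      refine ⟨hx.1, ?_⟩
      by_contra hR
      refine hx.2 (hfree δ a w x (fun i => ?_) hR)
      obtain ⟨A, B, hA, hB, hxe, hN, -⟩ := hΛ (x i) ((Fintype.mem_piFinset.mp hx.1) i)
      have hA0 : (0 : ℚ) < A := by exact_mod_cast isProduct_pos ha hA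
      have hB0 : (0 : ℚ) < B := by exact_mod_cast isProduct_pos ha hB
      rw [hxe]
      constructor
      · exact div_pos hA0 hB0
      · rw [← mul_div_assoc, div_le_one hB0]
        exact_mod_cast hcusp δ A B hN (isProduct_pos ha hA)
    · obtain ⟨A, B, ⟨n, hn⟩, ⟨m, hm⟩, hxe, hN, hBY⟩ := hΛ x hx
      have hn' : A = Pool.Agent.D0H75.LS.pp a n := hn
      have hm' : B = Pool.Agent.D0H75.LS.pp a m := hm
      refine ⟨n, m, ?_, ?_, ?_⟩
      · rw [hxe, hn', hm']
      · rw [← hm']
        exact hBY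
      · rw [← hm', ← hn']
        refine (Nat.pow_le_pow_left (Nat.le_succ A) _).trans ((Nat.pow_le_pow_right (Nat.succ_pos A)
          (hpow δ C₂ (by omega))).trans hN)
    · have hLL := Pool.Agent.D0H75.LS.loglog16 hY
      refine mul_le_mul_of_nonneg_right (mul_le_mul_of_nonneg_right ?_ (by linarith)) (by positivity)
      have h6 := hpow δ C₂ (by omega)
      exact_mod_cast h6
  · -- relations which do not contain the other constants
    set e : Option (Fin k) → Option (Fin s ⊕ Fin q) ⊕ Fin k := fun o => o.elim (Sum.inl none) Sum.inr with he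
    have h1 := hx z hz K hK hKd (MvPolynomial.rename e P) ((MvPolynomial.totalDegree_rename_le _ _).trans hP) (by
      rw [MvPolynomial.aeval_rename, ← hP0]
      congr 2
      funext o
      rcases o with _ | o <;> rfl)
    set e' : Option (Fin k) → Fin 1 ⊕ Fin k := fun o => o.elim (Sum.inl 0) Sum.inr with he'
    have he'inj : Function.Injective e' := by
      intro o o' h
      rcases o with _ | o <;> rcases o' with _ | o' <;> simp [he'] at h ⊢
      exact h
    have h2 : MvPolynomial.rename e' P = 0 := by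
      refine Pool.Agent.R351.GD.inj_subK (fun _ : Fin 1 => Pool.Agent.Y120.J.tpi) ?_ _ ?_
      · rw [algebraicIndependent_unique_type_iff]
        intro h3
        have h4 : IsAlgebraic ℚ (Pool.Agent.Y120.J.tpi) := by
          have : Algebra.IsAlgebraic ℚ K := Algebra.IsAlgebraic.of_finite ℚ K
          exact h3.restrictScalars ℚ
        have h5 : IsAlgebraic ℚ (Complex.I : ℂ) := ⟨Polynomial.X ^ 2 + 1, by
          intro h0
          have := congrArg (Polynomial.eval 0) h0
          simp at this, by simp⟩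
        have h6 : (Real.pi : ℂ) = Pool.Agent.Y120.J.tpi * (2 * Complex.I)⁻¹ := by
          unfold Pool.Agent.Y120.J.tpi
          have := Complex.I_ne_zero
          field_simp
        apply Pool.Agent.H340R2.LW.transcendental_pi_complex
        rw [h6]
        have h7 : IsAlgebraic ℚ ((2 : ℕ) : ℂ) := isAlgebraic_natCast 2
        exact h4.mul ((h7.mul h5).inv)
      · rw [MvPolynomial.aeval_rename, ← h1, MvPolynomial.aeval_rename]
        congr 2
        funext o
        rcases o with _ | o <;> rfl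
    exact MvPolynomial.rename_injective e' he'inj (by rw [h2, map_zero])

end Pool.Agent.Results.MP_47914d_nt.SUnitInvariants
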